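import Pool.Agent.W_MP_a5173a_lc.Greedy

namespace Pool.Agent.W_MP_a5173a_lc

variable {n m : ℕ}

open Classical in
/-- The jobs that were started on machine `i` before time `x`. -/
noncomputable def early (σ : GState n m) (i : Fin m) (x : ℝ) : Finset (Fin n) :=
  Finset.univ.filter (fun k => ∃ r ∈ σ.runs, r.job = k ∧ r.mach = i ∧ r.start < x)

lemma mem_early {σ : GState n m} {i : Fin m} {x : ℝ} {k : Fin n} :
    k ∈ early σ i x ↔ ∃ r ∈ σ.runs, r.job = k ∧ r.mach = i ∧ r.start < x := by
  unfold early
  simp

lemma busy_sum {E : Fin n → Finset (Fin m)} {p : Fin n → ℝ} (hp : ∀ j, 0 < p j) (k : ℕ) :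
    ∀ (i : Fin m) (x : ℝ), 0 ≤ x → x ≤ (greedy E p k).free i →
      x ≤ ∑ j ∈ early (greedy E p k) i x, p j := by
  classical
  induction k with
  | zero =>
    intro i x hx0 hx
    simp only [greedy] at hx
    refine le_trans hx (Finset.sum_nonneg (fun j _ => (hp j).le))
  | succ k ih =>
    have hinv := ginv_greedy (E := E) hp k
    intro i x hx0 hx
    have hg : greedy E p (k + 1) = gstep E p (greedy E p k) := rfl
    rcases gstep_cases E p (greedy E p k) with ⟨_, h⟩ | ⟨y, hy, h⟩
    · rw [hg, h] at hx ⊢
      exact ih i x hx0 hx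
    · rw [hg, h] at hx ⊢
      have hmono : ∀ x', x' ≤ x →
          early (greedy E p k) i x' ⊆ early (after p (greedy E p k) y) i x := by
        intro x' hx' j hj
        obtain ⟨r, hr, h1, h2, h3⟩ := mem_early.mp hj
        exact mem_early.mpr ⟨r, Set.mem_insert_of_mem _ hr, h1, h2, lt_of_lt_of_le h3 hx'⟩
      rcases le_or_gt x ((greedy E p k).free i) with hle | hgt
      · refine le_trans (ih i x hx0 hle) ?_
        exact Finset.sum_le_sum_of_subset_of_nonneg (hmono x le_rfl) (fun j _ _ => (hp j).le)
      · simp only [after, Function.update_apply] at hx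
        split_ifs at hx with hi
        · subst hi
          have hnot : y.2 ∉ early (greedy E p k) y.1 ((greedy E p k).free y.1) := by
            intro hcon
            obtain ⟨r, hr, h1, _, _⟩ := mem_early.mp hcon
            apply hinv.notin r hr
            rw [h1]
            exact (mem_cands.mp (mem_best.mp hy).1).1
          have hsub : insert y.2 (early (greedy E p k) y.1 ((greedy E p k).free y.1)) ⊆
              early (after p (greedy E p k) y) y.1 x := by
            intro j hj
            rcases Finset.mem_insert.mp hj with rfl | hj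
            · exact mem_early.mpr ⟨_, Set.mem_insert _ _, rfl, rfl, hgt⟩
            · exact hmono _ hgt.le hj
          have h1 := ih y.1 _ (hinv.free_nonneg y.1) le_rfl
          calc x ≤ (greedy E p k).free y.1 + p y.2 := hx
            _ ≤ p y.2 + ∑ j ∈ early (greedy E p k) y.1 ((greedy E p k).free y.1), p j := by
                linarith
            _ = ∑ j ∈ insert y.2 (early (greedy E p k) y.1 ((greedy E p k).free y.1)), p j := by
                rw [Finset.sum_insert hnot]
            _ ≤ _ := Finset.sum_le_sum_of_subset_of_nonneg hsub (fun j _ _ => (hp j).le)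
        · exact absurd hx (not_le.mpr hgt)

/-- The abstract analysis: `s j` start times, `g j` machines. -/
lemma analysis {E : Fin n → Finset (Fin m)} {p : Fin n → ℝ} (hp : ∀ j, 0 < p j)
    (s : Fin n → ℝ) (g : Fin n → Fin m) (T : ℝ)
    (F : Fin n → Fin m) (hF : ∀ j, F j ∈ E j) (hload : ∀ b, ∑ j with F j = b, p j ≤ T)
    (P1 : ∀ j, ∀ i ∈ E j, ∀ x, 0 ≤ x → x ≤ s j → x ≤ ∑ k with (g k = i ∧ s k < x), p k)
    (P2 : ∀ i, ∀ x, 0 ≤ x → ∑ k with (g k = i ∧ s k < x), p k ≤ x + T) (j : Fin n) :
    s j + p j ≤ (2 * (Nat.log 2 m : ℝ) + 5) * T := by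
  classical
  have hpT : ∀ j, p j ≤ T := by
    intro j
    refine le_trans ?_ (hload (F j))
    apply Finset.single_le_sum (f := p) (fun i _ => (hp i).le)
    simp
  have hT : 0 < T := lt_of_lt_of_le (hp j) (hpT j)
  set W : ℝ → ℝ := fun x => ∑ k with x ≤ s k, p k with hW
  have hWnn : ∀ x, 0 ≤ W x := fun x => Finset.sum_nonneg (fun k _ => (hp k).le)
  -- the key step
  have key : ∀ x, 0 ≤ x → ∃ N : ℕ, W (x + 2 * T) ≤ N * T ∧ N * T ≤ W x - W (x + 2 * T) ∧
      ((∃ k, x + 2 * T ≤ s k) → 1 ≤ N) := by
    intro x hx
    set X : Finset (Fin m) := Finset.univ.filter (fun i => ∃ k, x + 2 * T ≤ s k ∧ i ∈ E k) with hX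
    refine ⟨X.card, ?_, ?_, ?_⟩
    · have hmaps : ∀ k ∈ Finset.univ.filter (fun k => x + 2 * T ≤ s k), F k ∈ X := by
        intro k hk
        rw [Finset.mem_filter] at hk
        rw [hX, Finset.mem_filter]
        exact ⟨Finset.mem_univ _, k, hk.2, hF k⟩
      simp only [hW]
      rw [← Finset.sum_fiberwise_of_maps_to hmaps]
      calc ∑ i ∈ X, ∑ k ∈ Finset.univ.filter (fun k => x + 2 * T ≤ s k) with F k = i, p k
          ≤ ∑ i ∈ X, T := by
            apply Finset.sum_le_sum
            intro i _
            refine le_trans ?_ (hload i)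
            apply Finset.sum_le_sum_of_subset_of_nonneg
            · intro k hk
              simp only [Finset.mem_filter, Finset.mem_univ, true_and] at hk ⊢
              exact hk.2
            · intro k _ _; exact (hp k).le
        _ = X.card * T := by rw [Finset.sum_const, nsmul_eq_mul]
    · -- the volume processed between `x` and `x + 2T`
      have hdiff : W x - W (x + 2 * T) = ∑ k with (x ≤ s k ∧ s k < x + 2 * T), p k := by
        simp only [hW]
        rw [← Finset.sum_filter_add_sum_filter_not (Finset.univ.filter (fun k => x ≤ s k))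
          (fun k => x + 2 * T ≤ s k)]
        have e1 : ((Finset.univ.filter (fun k => x ≤ s k)).filter
            (fun k => x + 2 * T ≤ s k)) = Finset.univ.filter (fun k => x + 2 * T ≤ s k) := by
          ext k
          simp only [Finset.mem_filter, Finset.mem_univ, true_and]
          constructor
          · exact fun h => h.2
          · intro h; exact ⟨by linarith, h⟩
        have e2 : ((Finset.univ.filter (fun k => x ≤ s k)).filter
            (fun k => ¬ x + 2 * T ≤ s k)) =
            Finset.univ.filter (fun k => x ≤ s k ∧ s k < x + 2 * T) := by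
          ext k
          simp only [Finset.mem_filter, Finset.mem_univ, true_and, not_le]
        rw [e1, e2]
        ring
      rw [hdiff]
      have hper : ∀ i ∈ X, T ≤ ∑ k with (g k = i ∧ x ≤ s k ∧ s k < x + 2 * T), p k := by
        intro i hi
        rw [hX, Finset.mem_filter] at hi
        obtain ⟨_, k, hk, hik⟩ := hi
        have h1 := P1 k i hik (x + 2 * T) (by linarith) hk
        have h2 := P2 i x hx
        rw [← Finset.sum_filter_add_sum_filter_not
          (Finset.univ.filter (fun k => g k = i ∧ s k < x + 2 * T)) (fun k => s k < x)] at h1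
        have e1 : ((Finset.univ.filter (fun k => g k = i ∧ s k < x + 2 * T)).filter
            (fun k => s k < x)) = Finset.univ.filter (fun k => g k = i ∧ s k < x) := by
          ext k
          simp only [Finset.mem_filter, Finset.mem_univ, true_and]
          constructor
          · exact fun h => ⟨h.1.1, h.2⟩
          · intro h; exact ⟨⟨h.1, by linarith [h.2]⟩, h.2⟩
        have e2 : ((Finset.univ.filter (fun k => g k = i ∧ s k < x + 2 * T)).filter
            (fun k => ¬ s k < x)) =
            Finset.univ.filter (fun k => g k = i ∧ x ≤ s k ∧ s k < x + 2 * T) := by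
          ext k
          simp only [Finset.mem_filter, Finset.mem_univ, true_and, not_lt]
          tauto
        rw [e1, e2] at h1
        linarith
      calc (X.card : ℝ) * T = ∑ i ∈ X, T := by rw [Finset.sum_const, nsmul_eq_mul]
        _ ≤ ∑ i ∈ X, ∑ k with (g k = i ∧ x ≤ s k ∧ s k < x + 2 * T), p k :=
            Finset.sum_le_sum hper
        _ ≤ ∑ i, ∑ k with (g k = i ∧ x ≤ s k ∧ s k < x + 2 * T), p k :=
            Finset.sum_le_sum_of_subset_of_nonneg (Finset.subset_univ _)
              (fun i _ _ => Finset.sum_nonneg (fun k _ => (hp k).le))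
        _ = ∑ k with (x ≤ s k ∧ s k < x + 2 * T), p k := by
            rw [← Finset.sum_fiberwise (Finset.univ.filter
              (fun k => x ≤ s k ∧ s k < x + 2 * T)) g]
            apply Finset.sum_congr rfl
            intro i _
            apply Finset.sum_congr _ (fun _ _ => rfl)
            ext k
            simp only [Finset.mem_filter, Finset.mem_univ, true_and]
            tauto
    · rintro ⟨k, hk⟩
      apply Finset.card_pos.mpr
      refine ⟨F k, ?_⟩
      rw [hX, Finset.mem_filter]
      exact ⟨Finset.mem_univ _, k, hk, hF k⟩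
  -- iterate
  have hW0 : W 0 ≤ m * T := by
    simp only [hW]
    calc ∑ k with 0 ≤ s k, p k ≤ ∑ k, p k :=
          Finset.sum_le_sum_of_subset_of_nonneg (Finset.filter_subset _ _)
            (fun k _ _ => (hp k).le)
      _ = ∑ i, ∑ k with F k = i, p k := (Finset.sum_fiberwise _ _ _).symm
      _ ≤ ∑ i : Fin m, T := Finset.sum_le_sum (fun i _ => hload i)
      _ = m * T := by simp
  have hiter : ∀ l : ℕ, W (l * (2 * T)) * 2 ^ l ≤ m * T := by
    intro l
    induction l with
    | zero => simpa using hW0
    | succ l ih =>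
      obtain ⟨N, h1, h2, _⟩ := key (l * (2 * T)) (by positivity)
      have e : ((l + 1 : ℕ) : ℝ) * (2 * T) = l * (2 * T) + 2 * T := by push_cast; ring
      rw [e]
      have h3 : 2 * W (l * (2 * T) + 2 * T) ≤ W (l * (2 * T)) := by linarith
      calc W (l * (2 * T) + 2 * T) * 2 ^ (l + 1) = (2 * W (l * (2 * T) + 2 * T)) * 2 ^ l := by ring
        _ ≤ W (l * (2 * T)) * 2 ^ l := mul_le_mul_of_nonneg_right h3 (by positivity)
        _ ≤ m * T := ih
  set K := Nat.log 2 m + 1 with hK
  have hmK : (m : ℝ) < 2 ^ K := by
    have := Nat.lt_pow_succ_log_self (b := 2) (by norm_num) m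
    exact_mod_cast this
  have hlt : s j < K * (2 * T) + 2 * T := by
    by_contra hcon
    push Not at hcon
    obtain ⟨N, h1, h2, h3⟩ := key (K * (2 * T)) (by positivity)
    have hN := h3 ⟨j, hcon⟩
    have hN' : (1 : ℝ) ≤ N := by exact_mod_cast hN
    have h4 : T ≤ W (K * (2 * T)) := by
      have := hWnn (K * (2 * T) + 2 * T)
      nlinarith
    have h5 := hiter K
    have h6 : T * 2 ^ K ≤ m * T := le_trans (mul_le_mul_of_nonneg_right h4 (by positivity)) h5
    have h7 : (2 : ℝ) ^ K ≤ m := by
      rw [mul_comm] at h6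
      exact le_of_mul_le_mul_right h6 hT
    linarith
  have hKc : (K : ℝ) = Nat.log 2 m + 1 := by rw [hK]; push_cast; ring
  have := hpT j
  rw [hKc] at hlt
  nlinarith

theorem greedy_competitive (m : ℕ) :
    Competitive (greedyAlg m) (2 * (Nat.log 2 m : ℝ) + 5) := by
  classical
  intro n E p hE hp j
  have hinv := ginv_greedy (E := E) hp n
  have htodo := todo_empty hE p
  have hex : ∀ j, ∃ r ∈ (greedy E p n).runs, r.job = j := by
    intro j
    apply hinv.ex
    rw [htodo]
    exact Finset.notMem_empty _
  choose ρ hρ hρj using hex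
  have hleg := greedy_legal (E := E) hp
  refine ⟨ρ j, hρ j, hρj j, by rw [hinv.stop _ (hρ j), hρj j]; ring, ?_⟩
  rw [hinv.stop _ (hρ j), hρj j]
  have hpos : 0 < 2 * (Nat.log 2 m : ℝ) + 5 := by positivity
  have hearly : ∀ i x, early (greedy E p n) i x =
      Finset.univ.filter (fun k => (ρ k).mach = i ∧ (ρ k).start < x) := by
    intro i x
    ext k
    rw [mem_early, Finset.mem_filter]
    constructor
    · rintro ⟨r, hr, h1, h2, h3⟩
      have : r = ρ k := hinv.uniq r hr _ (hρ k) (by rw [h1, hρj k])
      rw [← this]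
      exact ⟨Finset.mem_univ _, h2, h3⟩
    · rintro ⟨_, h2, h3⟩
      exact ⟨ρ k, hρ k, hρj k, h2, h3⟩
  have hmain : ∀ T ∈ {T : ℝ | 0 ≤ T ∧ ∃ R : Set (Run n m), Legal E p R ∧ FinishedBy p R T},
      ((ρ j).start + p j) / (2 * (Nat.log 2 m : ℝ) + 5) ≤ T := by
    rintro T ⟨hT0, R, hR, hfin⟩
    obtain ⟨F, hF, hload⟩ := assignment_of_legal hR hT0 hfin
    rw [div_le_iff₀ hpos, mul_comm]
    have hpT : ∀ j, p j ≤ T := by
      intro j
      refine le_trans ?_ (hload (F j))
      apply Finset.single_le_sum (f := p) (fun i _ => (hp i).le)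
      simp
    apply analysis hp (fun k => (ρ k).start) (fun k => (ρ k).mach)
      T F hF hload
    · intro k i hik x hx0 hx
      rw [← hearly i x]
      apply busy_sum hp n i x hx0
      refine le_trans hx ?_
      apply hinv.busy _ (hρ k)
      rw [hρj k]; exact hik
    · intro i x hx0
      have h := sum_intervals (Finset.univ.filter (fun k => (ρ k).mach = i ∧ (ρ k).start < x))
        (fun k => (ρ k).start) (fun k => (ρ k).stop) 0 (x + T) (by linarith) ?_ ?_ ?_ ?_
      · rw [sub_zero] at h
        refine le_trans (le_of_eq ?_) h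
        apply Finset.sum_congr rfl
        intro k _
        rw [hinv.stop _ (hρ k), hρj k]
        ring
      · intro k _; exact (hleg.times _ (hρ k)).2.le
      · intro k _; exact (hleg.times _ (hρ k)).1
      · intro k hk
        rw [Finset.mem_filter] at hk
        rw [hinv.stop _ (hρ k), hρj k]
        have := hpT k
        linarith [hk.2.2]
      · intro k hk l hl hkl
        rw [Finset.mem_filter] at hk hl
        rcases hleg.machine_excl _ (hρ k) _ (hρ l) (by rw [hk.2.1, hl.2.1]) with h | h | h
        · exfalso; apply hkl; rw [← hρj k, ← hρj l, h]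
        · exact Or.inl h
        · exact Or.inr h
  have hle := le_csInf (opt_set_nonempty hE hp) hmain
  rw [div_le_iff₀ hpos] at hle
  rw [mul_comm]
  exact hle

end Pool.Agent.W_MP_a5173a_lc
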