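import Pool.Agent.W_MP_a5173a_lc.Defs

namespace Pool.Agent.W_MP_a5173a_lc

open MeasureTheory

lemma sum_intervals {ι : Type*} (s : Finset ι) (a b : ι → ℝ) (t t' : ℝ) (htt : t ≤ t')
    (hab : ∀ i ∈ s, a i ≤ b i) (ha : ∀ i ∈ s, t ≤ a i) (hb : ∀ i ∈ s, b i ≤ t')
    (hdis : ∀ i ∈ s, ∀ j ∈ s, i ≠ j → b i ≤ a j ∨ b j ≤ a i) :
    ∑ i ∈ s, (b i - a i) ≤ t' - t := by
  classical
  have hd : (s : Set ι).PairwiseDisjoint (fun i => Set.Ioc (a i) (b i)) := by
    intro i hi j hj hij
    have h := hdis i hi j hj hij
    show Disjoint (Set.Ioc (a i) (b i)) (Set.Ioc (a j) (b j))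
    rw [Set.disjoint_left]
    intro x hx hx'
    rcases h with h | h
    · have h1 := hx.2; have h2 := hx'.1
      linarith
    · have h1 := hx.1; have h2 := hx'.2
      linarith
  have h1 : volume (⋃ i ∈ s, Set.Ioc (a i) (b i)) = ∑ i ∈ s, volume (Set.Ioc (a i) (b i)) :=
    measure_biUnion_finset hd (fun i _ => measurableSet_Ioc)
  have h2 : (⋃ i ∈ s, Set.Ioc (a i) (b i)) ⊆ Set.Ioc t t' := by
    intro x hx
    simp only [Set.mem_iUnion] at hx
    obtain ⟨i, hi, hx⟩ := hx
    exact ⟨lt_of_le_of_lt (ha i hi) hx.1, le_trans hx.2 (hb i hi)⟩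
  have h3 : ∑ i ∈ s, volume (Set.Ioc (a i) (b i)) ≤ volume (Set.Ioc t t') := by
    rw [← h1]; exact measure_mono h2
  simp only [Real.volume_Ioc] at h3
  rw [← ENNReal.ofReal_sum_of_nonneg] at h3
  · exact (ENNReal.ofReal_le_ofReal_iff (by linarith)).mp h3
  · intro i hi
    have := hab i hi
    linarith

variable {n m : ℕ}

/-- The longest run of job `j` in a set of runs (`0` if there is none). -/
noncomputable def longest (B : Set (Run n m)) (j : Fin n) : ℝ :=
  sSup (insert 0 {x | ∃ r ∈ B, r.job = j ∧ x = r.stop - r.start})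

lemma longest_set_bdd {E : Fin n → Finset (Fin m)} {p : Fin n → ℝ} {R : Set (Run n m)}
    (hR : Legal E p R) (hp : ∀ j, 0 < p j) (t : ℝ) (j : Fin n) :
    ∀ x ∈ (insert (0:ℝ) {x | ∃ r ∈ seenBefore R t, r.job = j ∧ x = r.stop - r.start}), x ≤ p j := by
  intro x hx
  rcases hx with rfl | ⟨r, ⟨r₀, hr₀, ht, rfl⟩, hj, rfl⟩
  · exact (hp j).le
  · have h1 := hR.length_le r₀ hr₀
    simp only at hj ⊢
    subst hj
    have h2 := min_le_left r₀.stop t
    linarith

lemma longest_le {E : Fin n → Finset (Fin m)} {p : Fin n → ℝ} {R : Set (Run n m)}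
    (hR : Legal E p R) (hp : ∀ j, 0 < p j) (t : ℝ) (j : Fin n) :
    longest (seenBefore R t) j ≤ p j :=
  csSup_le ⟨0, Set.mem_insert _ _⟩ (longest_set_bdd hR hp t j)

lemma longest_nonneg {E : Fin n → Finset (Fin m)} {p : Fin n → ℝ} {R : Set (Run n m)}
    (hR : Legal E p R) (hp : ∀ j, 0 < p j) (t : ℝ) (j : Fin n) :
    0 ≤ longest (seenBefore R t) j :=
  le_csSup ⟨p j, longest_set_bdd hR hp t j⟩ (Set.mem_insert _ _)

lemma le_longest {E : Fin n → Finset (Fin m)} {p : Fin n → ℝ} {R : Set (Run n m)}
    (hR : Legal E p R) (hp : ∀ j, 0 < p j) (t : ℝ) (r : Run n m) (hr : r ∈ R)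
    (ht : r.start < t) :
    min r.stop t - r.start ≤ longest (seenBefore R t) r.job := by
  apply le_csSup ⟨p r.job, longest_set_bdd hR hp t r.job⟩
  right
  exact ⟨⟨r.job, r.mach, r.start, min r.stop t⟩, ⟨r, hr, ht, rfl⟩, rfl, rfl⟩

lemma longest_zero {E : Fin n → Finset (Fin m)} {p : Fin n → ℝ} {R : Set (Run n m)}
    (hR : Legal E p R) (hp : ∀ j, 0 < p j) (j : Fin n) :
    longest (seenBefore R 0) j = 0 := by
  apply le_antisymm _ (longest_nonneg hR hp 0 j)
  apply csSup_le ⟨0, Set.mem_insert _ _⟩
  intro x hx
  rcases hx with rfl | ⟨r, ⟨r₀, hr₀, ht, rfl⟩, hj, rfl⟩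
  · exact le_refl _
  · have := (hR.times r₀ hr₀).1
    linarith

/-- For each job the increase of `longest` between `t` and `t'` is (up to `η`) at most the portion
inside `[t, t']` of a single run of the job. -/
lemma longest_step {E : Fin n → Finset (Fin m)} {p : Fin n → ℝ} {R : Set (Run n m)}
    (hR : Legal E p R) (hp : ∀ j, 0 < p j) {t t' : ℝ} (j : Fin n) {η : ℝ}
    (hη : 0 < η) :
    longest (seenBefore R t') j - longest (seenBefore R t) j ≤ η ∨
    ∃ r ∈ R, r.job = j ∧ max r.start t ≤ min r.stop t' ∧
      longest (seenBefore R t') j - longest (seenBefore R t) j ≤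
        min r.stop t' - max r.start t + η := by
  by_cases h : longest (seenBefore R t') j - longest (seenBefore R t) j ≤ η
  · exact Or.inl h
  right
  push Not at h
  have h0 : 0 ≤ longest (seenBefore R t) j := longest_nonneg hR hp t j
  have hlt : longest (seenBefore R t') j - η < longest (seenBefore R t') j := by linarith
  obtain ⟨x, hx, hx'⟩ := exists_lt_of_lt_csSup ⟨0, Set.mem_insert _ _⟩ hlt
  rcases hx with rfl | ⟨s, ⟨r, hr, ht, rfl⟩, hj, rfl⟩
  · exfalso; linarith
  · simp only at hj hx'
    refine ⟨r, hr, hj, ?_, ?_⟩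
    · -- the run reaches beyond `t`
      by_contra hcon
      push Not at hcon
      have hle : min r.stop t' ≤ t := by
        rcases max_choice r.start t with h1 | h1
        · rw [h1] at hcon
          have h2 := (hR.times r hr).2
          rcases min_choice r.stop t' with h3 | h3
          · rw [h3] at hcon; linarith
          · rw [h3] at hcon; linarith
        · rw [h1] at hcon; exact hcon.le
      have hst : r.start < t := by
        have h2 := (hR.times r hr).2
        have : r.start < min r.stop t' := lt_min h2 ht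
        linarith
      have h5 := le_longest hR hp t r hr hst
      rw [hj] at h5
      have h6 : min r.stop t' ≤ min r.stop t := by
        apply le_min
        · exact min_le_left _ _
        · exact hle
      linarith
    · by_cases hst : r.start < t
      · have h5 := le_longest hR hp t r hr hst
        rw [hj] at h5
        rw [max_eq_right hst.le]
        have h6 : min r.stop t ≤ t := min_le_right _ _
        by_cases h7 : r.stop ≤ t
        · exfalso
          rw [min_eq_left h7] at h5
          have : min r.stop t' ≤ r.stop := min_le_left _ _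
          linarith
        · push Not at h7
          rw [min_eq_right h7.le] at h5
          linarith
      · push Not at hst
        rw [max_eq_left hst]
        linarith

lemma sum_increments {E : Fin n → Finset (Fin m)} {p : Fin n → ℝ} {R : Set (Run n m)}
    (hR : Legal E p R) (hp : ∀ j, 0 < p j) {t t' : ℝ} (htt : t ≤ t')
    (S : Finset (Fin m)) (J : Finset (Fin n)) (hJ : ∀ j ∈ J, E j ⊆ S) :
    ∑ j ∈ J, longest (seenBefore R t') j ≤
      ∑ j ∈ J, longest (seenBefore R t) j + S.card * (t' - t) := by
  classical
  apply le_of_forall_pos_le_add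
  intro η hη
  -- distribute the error
  set η' : ℝ := η / (J.card + 1) with hη'
  have hη'pos : 0 < η' := by positivity
  have hcard : (J.card : ℝ) * η' ≤ η := by
    rw [hη', mul_div_assoc', div_le_iff₀ (by positivity)]
    nlinarith
  -- the jobs whose increase exceeds the error
  set P : Fin n → Prop := fun j => ∃ r ∈ R, r.job = j ∧ max r.start t ≤ min r.stop t' ∧
      longest (seenBefore R t') j - longest (seenBefore R t) j ≤
        min r.stop t' - max r.start t + η' with hP
  set J1 : Finset (Fin n) := J.filter P with hJ1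
  have hex : ∀ j : Fin n, P j → ∃ r ∈ R, r.job = j ∧ max r.start t ≤ min r.stop t' ∧
      longest (seenBefore R t') j - longest (seenBefore R t) j ≤
        min r.stop t' - max r.start t + η' := fun j h => h
  rcases isEmpty_or_nonempty (Run n m) with hemp | hne
  · have hpt : ∀ j ∈ J, longest (seenBefore R t') j - longest (seenBefore R t) j ≤ η' := by
      intro j _
      rcases longest_step hR hp j hη'pos (t := t) (t' := t') with h' | ⟨r, _⟩
      · exact h'
      · exact hemp.elim r
    have hsum := Finset.sum_le_sum hpt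
    rw [Finset.sum_sub_distrib, Finset.sum_const, nsmul_eq_mul] at hsum
    have : 0 ≤ (S.card : ℝ) * (t' - t) := mul_nonneg (Nat.cast_nonneg _) (by linarith)
    linarith
  choose! ρ hρR hρj hρle hρinc using hex
  -- total length of the chosen runs
  have hmaps : ∀ j ∈ J1, (ρ j).mach ∈ S := by
    intro j hj
    have hj' := (Finset.mem_filter.mp hj)
    have h1 := hR.eligible (ρ j) (hρR j hj'.2)
    rw [hρj j hj'.2] at h1
    exact hJ j hj'.1 h1
  have htot : ∑ j ∈ J1, (min (ρ j).stop t' - max (ρ j).start t) ≤ S.card * (t' - t) := by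
    rw [← Finset.sum_fiberwise_of_maps_to hmaps]
    calc ∑ i ∈ S, ∑ j ∈ J1 with (ρ j).mach = i, (min (ρ j).stop t' - max (ρ j).start t)
        ≤ ∑ i ∈ S, (t' - t) := by
          apply Finset.sum_le_sum
          intro i _
          apply sum_intervals _ (fun j => max (ρ j).start t) (fun j => min (ρ j).stop t') t t' htt
          · intro j hj
            have hj' := (Finset.mem_filter.mp (Finset.mem_filter.mp hj).1).2
            exact hρle j hj'
          · intro j _; exact le_max_right _ _
          · intro j _; exact min_le_right _ _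
          · intro j hj k hk hjk
            have hj1 := (Finset.mem_filter.mp (Finset.mem_filter.mp hj).1).2
            have hk1 := (Finset.mem_filter.mp (Finset.mem_filter.mp hk).1).2
            have hj2 := (Finset.mem_filter.mp hj).2
            have hk2 := (Finset.mem_filter.mp hk).2
            rcases hR.machine_excl (ρ j) (hρR j hj1) (ρ k) (hρR k hk1) (by rw [hj2, hk2]) with
              h | h | h
            · exfalso
              apply hjk
              rw [← hρj j hj1, ← hρj k hk1, h]
            · left
              exact le_trans (min_le_left _ _) (le_trans h (le_max_left _ _))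
            · right
              exact le_trans (min_le_left _ _) (le_trans h (le_max_left _ _))
      _ = S.card * (t' - t) := by rw [Finset.sum_const, nsmul_eq_mul]
  -- the pointwise bound
  have hpt : ∀ j ∈ J, longest (seenBefore R t') j - longest (seenBefore R t) j ≤
      (if P j then (min (ρ j).stop t' - max (ρ j).start t) else 0) + η' := by
    intro j _
    split_ifs with h
    · exact hρinc j h
    · rcases longest_step hR hp j hη'pos (t := t) (t' := t') with h' | h'
      · linarith
      · exact absurd h' h
  have hsum := Finset.sum_le_sum hpt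
  rw [Finset.sum_sub_distrib, Finset.sum_add_distrib, Finset.sum_const, nsmul_eq_mul,
    ← Finset.sum_filter] at hsum
  linarith

end Pool.Agent.W_MP_a5173a_lc
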