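import Mathlib

/-!
Definitions for restricted assignment scheduling with unknown running times and restarts.
-/

namespace Pool.Agent.W_MP_a5173a_lc

/-- One uninterrupted run: job `job` is processed on machine `mach` during `[start, stop)`. -/
@[ext] structure Run (n m : ℕ) where
  job : Fin n
  mach : Fin m
  start : ℝ
  stop : ℝ

/-- `R` is a legal timetable (with restarts) for `n` jobs on `m` machines, with eligible sets `E`
and running times `p`.  A run of full length `p j` completes job `j`; every shorter run is a run
that was stopped, and its work is lost. -/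
structure Legal {n m : ℕ} (E : Fin n → Finset (Fin m)) (p : Fin n → ℝ)
    (R : Set (Run n m)) : Prop where
  eligible : ∀ r ∈ R, r.mach ∈ E r.job
  times : ∀ r ∈ R, 0 ≤ r.start ∧ r.start < r.stop
  length_le : ∀ r ∈ R, r.stop - r.start ≤ p r.job
  machine_excl : ∀ r ∈ R, ∀ r' ∈ R, r.mach = r'.mach →
    r = r' ∨ r.stop ≤ r'.start ∨ r'.stop ≤ r.start
  job_excl : ∀ r ∈ R, ∀ r' ∈ R, r.job = r'.job →
    r = r' ∨ r.stop ≤ r'.start ∨ r'.stop ≤ r.start
  completed_last : ∀ r ∈ R, ∀ r' ∈ R, r.job = r'.job → r.stop - r.start = p r.job →
    r'.stop ≤ r.stop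

/-- Every job is completed at time `T` or earlier. -/
def FinishedBy {n m : ℕ} (p : Fin n → ℝ) (R : Set (Run n m)) (T : ℝ) : Prop :=
  ∀ j : Fin n, ∃ r ∈ R, r.job = j ∧ r.stop - r.start = p j ∧ r.stop ≤ T

/-- The offline optimum: the least makespan of a legal timetable. -/
noncomputable def opt {n m : ℕ} (E : Fin n → Finset (Fin m)) (p : Fin n → ℝ) : ℝ :=
  sInf {T : ℝ | 0 ≤ T ∧ ∃ R : Set (Run n m), Legal E p R ∧ FinishedBy p R T}

/-- The part of the timetable `R` that lies before time `t`: the runs that start before `t`,
cut off at `t`. -/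
def seenBefore {n m : ℕ} (R : Set (Run n m)) (t : ℝ) : Set (Run n m) :=
  {s | ∃ r ∈ R, r.start < t ∧ s = ⟨r.job, r.mach, r.start, min r.stop t⟩}

/-- The running times `q` are compatible with everything that is observed before time `t` when the
timetable `R` is carried out with running times `p`: a job completed before `t` has the same running
time, a run stopped before `t` would not have completed its job under `q` either, and a run that
reaches time `t` is not completed under `q` before time `t`. -/
def Compatible {n m : ℕ} (R : Set (Run n m)) (p q : Fin n → ℝ) (t : ℝ) : Prop :=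
  ∀ r ∈ R, r.start < t →
    (r.stop < t → r.stop - r.start = p r.job → q r.job = p r.job) ∧
    (r.stop < t → r.stop - r.start < p r.job → r.stop - r.start < q r.job) ∧
    (t ≤ r.stop → t - r.start ≤ q r.job)

/-- A deterministic online algorithm for `m` machines.  It knows the number of jobs and the eligible
sets; what it does before time `t` depends only on what is observed before time `t`. -/
structure OnlineAlgorithm (m : ℕ) where
  plan : (n : ℕ) → (Fin n → Finset (Fin m)) → (Fin n → ℝ) → Set (Run n m)
  legal : ∀ (n : ℕ) (E : Fin n → Finset (Fin m)) (p : Fin n → ℝ),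
    (∀ j, (E j).Nonempty) → (∀ j, 0 < p j) → Legal E p (plan n E p)
  nonanticipating : ∀ (n : ℕ) (E : Fin n → Finset (Fin m)) (p q : Fin n → ℝ) (t : ℝ),
    (∀ j, (E j).Nonempty) → (∀ j, 0 < p j) → (∀ j, 0 < q j) →
    Compatible (plan n E p) p q t → seenBefore (plan n E p) t = seenBefore (plan n E q) t

/-- On every instance, the makespan of `A` is at most `c` times the offline optimum. -/
def Competitive {m : ℕ} (A : OnlineAlgorithm m) (c : ℝ) : Prop :=
  ∀ (n : ℕ) (E : Fin n → Finset (Fin m)) (p : Fin n → ℝ),
    (∀ j, (E j).Nonempty) → (∀ j, 0 < p j) → FinishedBy p (A.plan n E p) (c * opt E p)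

/-- The best competitive ratio of deterministic online algorithms on `m` machines. -/
noncomputable def cstar (m : ℕ) : ℝ :=
  sInf {c : ℝ | ∃ A : OnlineAlgorithm m, Competitive A c}

end Pool.Agent.W_MP_a5173a_lc
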