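import Pool.Agent.W_MP_a5173a_lc.Offline

namespace Pool.Agent.W_MP_a5173a_lc

variable {n m : ℕ}

/-- State of the greedy algorithm: when each machine becomes free, the jobs not yet started, and
the runs so far. -/
structure GState (n m : ℕ) where
  free : Fin m → ℝ
  todo : Finset (Fin n)
  runs : Set (Run n m)

/-- Eligible pairs (machine, unstarted job). -/
noncomputable def cands (E : Fin n → Finset (Fin m)) (todo : Finset (Fin n)) :
    Finset (Fin m × Fin n) :=
  Finset.univ.filter (fun x => x.2 ∈ todo ∧ x.1 ∈ E x.2)

lemma mem_cands {E : Fin n → Finset (Fin m)} {todo : Finset (Fin n)} {x : Fin m × Fin n} :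
    x ∈ cands E todo ↔ x.2 ∈ todo ∧ x.1 ∈ E x.2 := by
  unfold cands
  simp

open Classical in
/-- The eligible pairs whose machine becomes free first. -/
noncomputable def best (E : Fin n → Finset (Fin m)) (free : Fin m → ℝ) (todo : Finset (Fin n)) :
    Finset (Fin m × Fin n) :=
  (cands E todo).filter (fun x => ∀ y ∈ cands E todo, free x.1 ≤ free y.1)

lemma mem_best {E : Fin n → Finset (Fin m)} {free : Fin m → ℝ} {todo : Finset (Fin n)}
    {x : Fin m × Fin n} :
    x ∈ best E free todo ↔ x ∈ cands E todo ∧ ∀ y ∈ cands E todo, free x.1 ≤ free y.1 := by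
  unfold best
  simp

lemma best_nonempty {E : Fin n → Finset (Fin m)} {free : Fin m → ℝ} {todo : Finset (Fin n)}
    (h : (cands E todo).Nonempty) : (best E free todo).Nonempty := by
  obtain ⟨x, hx, hmin⟩ := Finset.exists_min_image (cands E todo) (fun x => free x.1) h
  exact ⟨x, mem_best.mpr ⟨hx, hmin⟩⟩

/-- One step: start a job on the machine that becomes free first. -/
noncomputable def after (p : Fin n → ℝ) (σ : GState n m) (x : Fin m × Fin n) : GState n m where
  free := Function.update σ.free x.1 (σ.free x.1 + p x.2)
  todo := σ.todo.erase x.2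
  runs := insert ⟨x.2, x.1, σ.free x.1, σ.free x.1 + p x.2⟩ σ.runs

open Classical in
noncomputable def gstep (E : Fin n → Finset (Fin m)) (p : Fin n → ℝ) (σ : GState n m) :
    GState n m :=
  if h : (best E σ.free σ.todo).Nonempty then after p σ h.choose else σ

noncomputable def greedy (E : Fin n → Finset (Fin m)) (p : Fin n → ℝ) : ℕ → GState n m
  | 0 => ⟨fun _ => 0, Finset.univ, ∅⟩
  | k + 1 => gstep E p (greedy E p k)

/-- Either nothing happens, or some best pair is used. -/
lemma gstep_cases (E : Fin n → Finset (Fin m)) (p : Fin n → ℝ) (σ : GState n m) :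
    (cands E σ.todo = ∅ ∧ gstep E p σ = σ) ∨
    ∃ x ∈ best E σ.free σ.todo, gstep E p σ = after p σ x := by
  classical
  unfold gstep
  split_ifs with h
  · right
    exact ⟨h.choose, h.choose_spec, rfl⟩
  · left
    refine ⟨?_, rfl⟩
    by_contra hne
    exact h (best_nonempty (Finset.nonempty_iff_ne_empty.mpr hne))

/-- Invariants of the greedy schedule. -/
structure GInv (E : Fin n → Finset (Fin m)) (p : Fin n → ℝ) (σ : GState n m) : Prop where
  free_nonneg : ∀ i, 0 ≤ σ.free i
  notin : ∀ r ∈ σ.runs, r.job ∉ σ.todo
  elig : ∀ r ∈ σ.runs, r.mach ∈ E r.job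
  start : ∀ r ∈ σ.runs, 0 ≤ r.start
  stop : ∀ r ∈ σ.runs, r.stop = r.start + p r.job
  le_free : ∀ r ∈ σ.runs, r.stop ≤ σ.free r.mach
  excl : ∀ r ∈ σ.runs, ∀ r' ∈ σ.runs, r.mach = r'.mach → r = r' ∨ r.stop ≤ r'.start ∨
    r'.stop ≤ r.start
  uniq : ∀ r ∈ σ.runs, ∀ r' ∈ σ.runs, r.job = r'.job → r = r'
  ex : ∀ j, j ∉ σ.todo → ∃ r ∈ σ.runs, r.job = j
  busy : ∀ r ∈ σ.runs, ∀ i ∈ E r.job, r.start ≤ σ.free i

lemma ginv_after {E : Fin n → Finset (Fin m)} {p : Fin n → ℝ} (hp : ∀ j, 0 < p j)
    {σ : GState n m} (h : GInv E p σ) {x : Fin m × Fin n} (hx : x ∈ best E σ.free σ.todo) :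
    GInv E p (after p σ x) := by
  obtain ⟨hxc, hmin⟩ := mem_best.mp hx
  obtain ⟨hxt, hxE⟩ := mem_cands.mp hxc
  have hpx := hp x.2
  have hfree : ∀ i, σ.free i ≤ (after p σ x).free i := by
    intro i
    simp only [after, Function.update_apply]
    split_ifs with hi
    · rw [hi]; linarith
    · exact le_refl _
  refine ⟨?_, ?_, ?_, ?_, ?_, ?_, ?_, ?_, ?_, ?_⟩
  · intro i; exact le_trans (h.free_nonneg i) (hfree i)
  · intro r hr
    simp only [after, Finset.mem_erase, not_and] at hr ⊢
    rcases hr with rfl | hr
    · intro h1; exact absurd rfl h1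
    · intro _; exact h.notin r hr
  · intro r hr
    rcases hr with rfl | hr
    · exact hxE
    · exact h.elig r hr
  · intro r hr
    rcases hr with rfl | hr
    · exact h.free_nonneg _
    · exact h.start r hr
  · intro r hr
    rcases hr with rfl | hr
    · rfl
    · exact h.stop r hr
  · intro r hr
    rcases hr with rfl | hr
    · simp [after]
    · exact le_trans (h.le_free r hr) (hfree _)
  · intro r hr r' hr' hm
    rcases hr with rfl | hr <;> rcases hr' with rfl | hr'
    · left; rfl
    · right; right
      have := h.le_free r' hr'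
      simp only at hm
      rw [← hm] at this
      exact this
    · right; left
      have := h.le_free r hr
      simp only at hm
      rw [hm] at this
      exact this
    · exact h.excl r hr r' hr' hm
  · intro r hr r' hr' hj
    rcases hr with rfl | hr <;> rcases hr' with rfl | hr'
    · rfl
    · exfalso
      simp only at hj
      exact h.notin r' hr' (hj ▸ hxt)
    · exfalso
      simp only at hj
      exact h.notin r hr (hj ▸ hxt)
    · exact h.uniq r hr r' hr' hj
  · intro j hj
    simp only [after, Finset.mem_erase, not_and] at hj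
    by_cases hjx : j = x.2
    · exact ⟨_, Set.mem_insert _ _, hjx.symm⟩
    · obtain ⟨r, hr, hrj⟩ := h.ex j (hj hjx)
      exact ⟨r, Set.mem_insert_of_mem _ hr, hrj⟩
  · intro r hr i hi
    rcases hr with rfl | hr
    · refine le_trans ?_ (hfree i)
      exact hmin (i, x.2) (mem_cands.mpr ⟨hxt, hi⟩)
    · exact le_trans (h.busy r hr i hi) (hfree i)

lemma ginv_greedy {E : Fin n → Finset (Fin m)} {p : Fin n → ℝ} (hp : ∀ j, 0 < p j) (k : ℕ) :
    GInv E p (greedy E p k) := by
  induction k with
  | zero =>
    refine ⟨fun _ => le_refl _, ?_, ?_, ?_, ?_, ?_, ?_, ?_, ?_, ?_⟩ <;>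
      simp [greedy]
  | succ k ih =>
    rcases gstep_cases E p (greedy E p k) with ⟨_, h⟩ | ⟨x, hx, h⟩
    · show GInv E p (gstep E p (greedy E p k))
      rw [h]; exact ih
    · show GInv E p (gstep E p (greedy E p k))
      rw [h]; exact ginv_after hp ih hx

lemma todo_card {E : Fin n → Finset (Fin m)} (hE : ∀ j, (E j).Nonempty) (p : Fin n → ℝ) (k : ℕ) :
    (greedy E p k).todo.card ≤ n - k := by
  induction k with
  | zero => simp [greedy]
  | succ k ih =>
    show (gstep E p (greedy E p k)).todo.card ≤ _
    rcases gstep_cases E p (greedy E p k) with ⟨hc, h⟩ | ⟨x, hx, h⟩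
    · have : (greedy E p k).todo = ∅ := by
        by_contra hne
        obtain ⟨j, hj⟩ := Finset.nonempty_iff_ne_empty.mpr hne
        obtain ⟨i, hi⟩ := hE j
        have : (i, j) ∈ cands E (greedy E p k).todo := mem_cands.mpr ⟨hj, hi⟩
        rw [hc] at this
        exact absurd this (Finset.notMem_empty _)
      rw [h, this]
      simp
    · rw [h]
      simp only [after]
      rw [Finset.card_erase_of_mem (mem_cands.mp (mem_best.mp hx).1).1]
      omega

lemma todo_empty {E : Fin n → Finset (Fin m)} (hE : ∀ j, (E j).Nonempty) (p : Fin n → ℝ) :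
    (greedy E p n).todo = ∅ := by
  have := todo_card hE p n
  rw [Nat.sub_self, Nat.le_zero, Finset.card_eq_zero] at this
  exact this

lemma runs_mono (E : Fin n → Finset (Fin m)) (p : Fin n → ℝ) {k l : ℕ} (h : k ≤ l) :
    (greedy E p k).runs ⊆ (greedy E p l).runs := by
  induction l with
  | zero => rw [Nat.le_zero.mp h]
  | succ l ih =>
    rcases Nat.lt_or_ge k (l + 1) with hlt | hge
    · refine (ih (Nat.lt_succ_iff.mp hlt)).trans ?_
      show _ ⊆ (gstep E p (greedy E p l)).runs
      rcases gstep_cases E p (greedy E p l) with ⟨_, h⟩ | ⟨x, _, h⟩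
      · rw [h]
      · rw [h]; exact Set.subset_insert _ _
    · rw [le_antisymm h hge]

lemma greedy_legal {E : Fin n → Finset (Fin m)} {p : Fin n → ℝ} (hp : ∀ j, 0 < p j) :
    Legal E p (greedy E p n).runs := by
  have h := ginv_greedy (E := E) hp n
  refine ⟨h.elig, ?_, ?_, h.excl, ?_, ?_⟩
  · intro r hr
    have h1 := h.start r hr
    have h2 := h.stop r hr
    have h3 := hp r.job
    exact ⟨h1, by linarith⟩
  · intro r hr
    have h2 := h.stop r hr
    linarith
  · intro r hr r' hr' hj
    exact Or.inl (h.uniq r hr r' hr' hj)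
  · intro r hr r' hr' hj _
    rw [h.uniq r hr r' hr' hj]

/-! ### Non-anticipation -/

lemma seenBefore_insert_of_le {R : Set (Run n m)} {r : Run n m} {t : ℝ} (h : t ≤ r.start) :
    seenBefore (insert r R) t = seenBefore R t := by
  ext s
  constructor
  · rintro ⟨r', hr', h1, h2⟩
    rcases hr' with rfl | hr'
    · exact absurd h1 (not_lt.mpr h)
    · exact ⟨r', hr', h1, h2⟩
  · rintro ⟨r', hr', h1, h2⟩
    exact ⟨r', Set.mem_insert_of_mem _ hr', h1, h2⟩

lemma seenBefore_insert_of_lt {R : Set (Run n m)} {r : Run n m} {t : ℝ} (h : r.start < t) :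
    seenBefore (insert r R) t =
      insert ⟨r.job, r.mach, r.start, min r.stop t⟩ (seenBefore R t) := by
  ext s
  constructor
  · rintro ⟨r', hr', h1, h2⟩
    rcases hr' with rfl | hr'
    · left; exact h2
    · right; exact ⟨r', hr', h1, h2⟩
  · rintro (rfl | ⟨r', hr', h1, h2⟩)
    · exact ⟨r, Set.mem_insert _ _, h, rfl⟩
    · exact ⟨r', Set.mem_insert_of_mem _ hr', h1, h2⟩

/-- From now on, nothing starts before `t`. -/
def Late (E : Fin n → Finset (Fin m)) (t : ℝ) (σ : GState n m) : Prop :=
  ∀ x ∈ cands E σ.todo, t ≤ σ.free x.1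

lemma late_step {E : Fin n → Finset (Fin m)} {p : Fin n → ℝ} (hp : ∀ j, 0 < p j) {t : ℝ}
    {σ : GState n m} (h : Late E t σ) :
    Late E t (gstep E p σ) ∧ seenBefore (gstep E p σ).runs t = seenBefore σ.runs t := by
  rcases gstep_cases E p σ with ⟨_, h'⟩ | ⟨x, hx, h'⟩
  · rw [h']; exact ⟨h, rfl⟩
  · rw [h']
    have hxc := (mem_best.mp hx).1
    have hxt := h x hxc
    have hpx := hp x.2
    constructor
    · intro y hy
      have hy' := mem_cands.mp hy
      simp only [after, Finset.mem_erase] at hy'
      have hyc : y ∈ cands E σ.todo := mem_cands.mpr ⟨hy'.1.2, hy'.2⟩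
      simp only [after, Function.update_apply]
      split_ifs with hi
      · linarith
      · exact h y hyc
    · exact seenBefore_insert_of_le hxt

/-- Two states that look the same before time `t`. -/
structure Alike (t : ℝ) (σ τ : GState n m) : Prop where
  todo : σ.todo = τ.todo
  early : ∀ i, σ.free i < t → τ.free i = σ.free i
  late : ∀ i, t ≤ σ.free i → t ≤ τ.free i
  seen : seenBefore σ.runs t = seenBefore τ.runs t

lemma best_eq_of_alike {E : Fin n → Finset (Fin m)} {t : ℝ} {σ τ : GState n m}
    (h : Alike t σ τ) {y : Fin m × Fin n} (hy : y ∈ cands E σ.todo) (hyt : σ.free y.1 < t) :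
    best E σ.free σ.todo = best E τ.free τ.todo := by
  ext x
  rw [mem_best, mem_best, ← h.todo]
  constructor
  · rintro ⟨hx, hmin⟩
    refine ⟨hx, fun z hz => ?_⟩
    have h1 := hmin y hy
    have h2 : σ.free x.1 < t := lt_of_le_of_lt h1 hyt
    rw [h.early _ h2]
    rcases lt_or_ge (σ.free z.1) t with hz' | hz'
    · rw [h.early _ hz']; exact hmin z hz
    · exact le_trans h2.le (h.late _ hz')
  · rintro ⟨hx, hmin⟩
    refine ⟨hx, fun z hz => ?_⟩
    have h1 := hmin y hy
    rw [h.early _ hyt] at h1
    have h2 : σ.free x.1 < t := by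
      by_contra hcon
      have := h.late _ (not_lt.mp hcon)
      linarith
    have h3 := hmin z hz
    rw [h.early _ h2] at h3
    rcases lt_or_ge (σ.free z.1) t with hz' | hz'
    · rw [h.early _ hz'] at h3; exact h3
    · exact le_trans h2.le hz'

lemma greedy_alike {E : Fin n → Finset (Fin m)} {p q : Fin n → ℝ} (hp : ∀ j, 0 < p j)
    (hq : ∀ j, 0 < q j) {t : ℝ} (hc : Compatible (greedy E p n).runs p q t) (k : ℕ)
    (hk : k ≤ n) :
    (Late E t (greedy E p k) ∧ Late E t (greedy E q k) ∧
      seenBefore (greedy E p k).runs t = seenBefore (greedy E q k).runs t) ∨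
    Alike t (greedy E p k) (greedy E q k) := by
  classical
  induction k with
  | zero =>
    right
    exact ⟨rfl, fun _ _ => rfl, fun _ h => h, rfl⟩
  | succ k ih =>
    rcases ih (Nat.le_of_succ_le hk) with ⟨h1, h2, h3⟩ | h
    · left
      have e1 := late_step hp h1
      have e2 := late_step hq h2
      refine ⟨e1.1, e2.1, ?_⟩
      show seenBefore (gstep E p (greedy E p k)).runs t = seenBefore (gstep E q (greedy E q k)).runs t
      rw [e1.2, e2.2, h3]
    · by_cases hlate : Late E t (greedy E p k)
      · left
        have hlate' : Late E t (greedy E q k) := by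
          intro x hx
          rw [← h.todo] at hx
          exact h.late _ (hlate x hx)
        have e1 := late_step hp hlate
        have e2 := late_step hq hlate'
        refine ⟨e1.1, e2.1, ?_⟩
        show seenBefore (gstep E p (greedy E p k)).runs t =
          seenBefore (gstep E q (greedy E q k)).runs t
        rw [e1.2, e2.2, h.seen]
      · right
        unfold Late at hlate
        push Not at hlate
        obtain ⟨y, hy, hyt⟩ := hlate
        have hbest := best_eq_of_alike h hy hyt
        have hne : (best E (greedy E p k).free (greedy E p k).todo).Nonempty :=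
          best_nonempty ⟨y, hy⟩
        have hne' : (best E (greedy E q k).free (greedy E q k).todo).Nonempty := by
          rw [← hbest]; exact hne
        -- the same pair is chosen
        have hchoose : hne.choose = hne'.choose := by
          congr 1
          funext x
          rw [hbest]
        set x := hne.choose with hxdef
        have hxb : x ∈ best E (greedy E p k).free (greedy E p k).todo := hne.choose_spec
        have e1 : greedy E p (k + 1) = after p (greedy E p k) x := by
          show gstep E p (greedy E p k) = _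
          unfold gstep
          rw [dif_pos hne]
        have e2 : greedy E q (k + 1) = after q (greedy E q k) x := by
          show gstep E q (greedy E q k) = _
          unfold gstep
          rw [dif_pos hne', hchoose]
        have hxt : (greedy E p k).free x.1 < t :=
          lt_of_le_of_lt ((mem_best.mp hxb).2 y hy) hyt
        have hfx := h.early _ hxt
        -- the observation about the new run
        have hmem : (⟨x.2, x.1, (greedy E p k).free x.1, (greedy E p k).free x.1 + p x.2⟩ :
            Run n m) ∈ (greedy E p n).runs := by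
          apply runs_mono E p hk
          rw [e1]
          exact Set.mem_insert _ _
        obtain ⟨c1, _, c3⟩ := hc _ hmem hxt
        simp only at c1 c3
        rw [e1, e2]
        refine ⟨?_, ?_, ?_, ?_⟩
        · simp only [after]
          rw [h.todo]
        · intro i hi
          simp only [after, Function.update_apply] at hi ⊢
          split_ifs at hi ⊢ with hix
          · rw [hfx, c1 hi (by ring)]
          · exact h.early _ hi
        · intro i hi
          simp only [after, Function.update_apply] at hi ⊢
          split_ifs at hi ⊢ with hix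
          · have := c3 hi
            rw [hfx]
            linarith
          · exact h.late _ hi
        · simp only [after]
          rw [seenBefore_insert_of_lt hxt, seenBefore_insert_of_lt (by rw [← hfx] at hxt; exact hxt),
            h.seen, hfx]
          congr 2
          rcases lt_or_ge ((greedy E p k).free x.1 + p x.2) t with h1 | h1
          · rw [c1 h1 (by ring)]
          · have := c3 h1
            rw [min_eq_right h1, min_eq_right (by linarith)]

/-- The greedy algorithm as an online algorithm. -/
noncomputable def greedyAlg (m : ℕ) : OnlineAlgorithm m where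
  plan := fun n E p => (greedy E p n).runs
  legal := fun n E p _ hp => greedy_legal hp
  nonanticipating := by
    intro n E p q t hE hp hq hc
    rcases greedy_alike hp hq hc n (le_refl _) with ⟨_, _, h⟩ | h
    · exact h
    · exact h.seen

end Pool.Agent.W_MP_a5173a_lc
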