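import Pool.Agent.W_MP_a5173a_lc.Basic

namespace Pool.Agent.W_MP_a5173a_lc

variable {n m : ℕ}

lemma opt_bddBelow (E : Fin n → Finset (Fin m)) (p : Fin n → ℝ) :
    BddBelow {T : ℝ | 0 ≤ T ∧ ∃ R : Set (Run n m), Legal E p R ∧ FinishedBy p R T} :=
  ⟨0, fun _ hT => hT.1⟩

lemma opt_nonneg (E : Fin n → Finset (Fin m)) (p : Fin n → ℝ) : 0 ≤ opt E p :=
  Real.sInf_nonneg (fun _ hT => hT.1)

/-- Start times when each machine runs its jobs one after the other in the order of their index. -/
noncomputable def seqStart (p : Fin n → ℝ) (F : Fin n → Fin m) (j : Fin n) : ℝ :=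
  ∑ k with (k < j ∧ F k = F j), p k

lemma seqStart_step {p : Fin n → ℝ} (hp : ∀ j, 0 < p j) {F : Fin n → Fin m} {j k : Fin n}
    (hjk : j < k) (hF : F j = F k) : seqStart p F j + p j ≤ seqStart p F k := by
  classical
  unfold seqStart
  have hj : j ∉ (Finset.univ.filter (fun i => i < j ∧ F i = F j)) := by simp
  rw [add_comm, ← Finset.sum_insert hj]
  apply Finset.sum_le_sum_of_subset_of_nonneg
  · intro i hi
    rw [Finset.mem_insert] at hi
    simp only [Finset.mem_filter, Finset.mem_univ, true_and] at hi ⊢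
    rcases hi with rfl | ⟨h1, h2⟩
    · exact ⟨hjk, hF⟩
    · exact ⟨h1.trans hjk, h2.trans hF⟩
  · intro i _ _; exact (hp i).le

lemma legal_of_assignment {E : Fin n → Finset (Fin m)} {p : Fin n → ℝ} (hp : ∀ j, 0 < p j)
    (F : Fin n → Fin m) (hF : ∀ j, F j ∈ E j) {B : ℝ}
    (hload : ∀ b, ∑ j with F j = b, p j ≤ B) :
    ∃ R : Set (Run n m), Legal E p R ∧ FinishedBy p R B := by
  classical
  refine ⟨{r | ∃ j, r = ⟨j, F j, seqStart p F j, seqStart p F j + p j⟩}, ?_, ?_⟩
  · have hs : ∀ j, 0 ≤ seqStart p F j := fun j => Finset.sum_nonneg (fun i _ => (hp i).le)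
    refine ⟨?_, ?_, ?_, ?_, ?_, ?_⟩
    · rintro r ⟨j, rfl⟩; exact hF j
    · rintro r ⟨j, rfl⟩
      refine ⟨hs j, ?_⟩
      have := hp j
      simp only
      linarith
    · rintro r ⟨j, rfl⟩
      simp
    · rintro r ⟨j, rfl⟩ r' ⟨k, rfl⟩ h
      simp only at h ⊢
      rcases lt_trichotomy j k with hjk | rfl | hjk
      · right; left; exact seqStart_step hp hjk h
      · left; rfl
      · right; right; exact seqStart_step hp hjk h.symm
    · rintro r ⟨j, rfl⟩ r' ⟨k, rfl⟩ h
      simp only at h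
      subst h
      left; rfl
    · rintro r ⟨j, rfl⟩ r' ⟨k, rfl⟩ h _
      simp only at h
      subst h
      exact le_refl _
  · intro j
    refine ⟨_, ⟨j, rfl⟩, rfl, by simp, ?_⟩
    simp only
    refine le_trans ?_ (hload (F j))
    unfold seqStart
    have hj : j ∉ (Finset.univ.filter (fun i => i < j ∧ F i = F j)) := by simp
    rw [add_comm, ← Finset.sum_insert hj]
    apply Finset.sum_le_sum_of_subset_of_nonneg
    · intro i hi
      rw [Finset.mem_insert] at hi
      simp only [Finset.mem_filter, Finset.mem_univ, true_and] at hi ⊢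
      rcases hi with rfl | ⟨h1, h2⟩
      · rfl
      · exact h2
    · intro i _ _; exact (hp i).le

lemma opt_le_of_assignment {E : Fin n → Finset (Fin m)} {p : Fin n → ℝ} (hp : ∀ j, 0 < p j)
    (F : Fin n → Fin m) (hF : ∀ j, F j ∈ E j) {B : ℝ} (hB : 0 ≤ B)
    (hload : ∀ b, ∑ j with F j = b, p j ≤ B) : opt E p ≤ B :=
  csInf_le (opt_bddBelow E p) ⟨hB, legal_of_assignment hp F hF hload⟩

lemma opt_set_nonempty {E : Fin n → Finset (Fin m)} {p : Fin n → ℝ} (hE : ∀ j, (E j).Nonempty)
    (hp : ∀ j, 0 < p j) :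
    {T : ℝ | 0 ≤ T ∧ ∃ R : Set (Run n m), Legal E p R ∧ FinishedBy p R T}.Nonempty := by
  classical
  refine ⟨∑ j, p j, Finset.sum_nonneg (fun j _ => (hp j).le),
    legal_of_assignment hp (fun j => (hE j).choose) (fun j => (hE j).choose_spec) ?_⟩
  intro b
  exact Finset.sum_le_sum_of_subset_of_nonneg (Finset.filter_subset _ _)
    (fun j _ _ => (hp j).le)

/-- A timetable that finishes by time `T` yields an assignment with all loads at most `T`. -/
lemma assignment_of_legal {E : Fin n → Finset (Fin m)} {p : Fin n → ℝ}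
    {R : Set (Run n m)} (hR : Legal E p R) {T : ℝ} (hT : 0 ≤ T) (hfin : FinishedBy p R T) :
    ∃ F : Fin n → Fin m, (∀ j, F j ∈ E j) ∧ ∀ b, ∑ j with F j = b, p j ≤ T := by
  classical
  choose ρ hρR hρj hρlen hρT using hfin
  refine ⟨fun j => (ρ j).mach, ?_, ?_⟩
  · intro j
    have := hR.eligible (ρ j) (hρR j)
    rwa [hρj j] at this
  · intro b
    have h := sum_intervals (Finset.univ.filter (fun j => (ρ j).mach = b))
      (fun j => (ρ j).start) (fun j => (ρ j).stop) 0 T hT ?_ ?_ ?_ ?_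
    · rw [sub_zero] at h
      refine le_trans (le_of_eq ?_) h
      apply Finset.sum_congr rfl
      intro j _
      exact (hρlen j).symm
    · intro j _; exact (hR.times _ (hρR j)).2.le
    · intro j _; exact (hR.times _ (hρR j)).1
    · intro j _; exact hρT j
    · intro j hj k hk hjk
      rw [Finset.mem_filter] at hj hk
      rcases hR.machine_excl _ (hρR j) _ (hρR k) (by rw [hj.2, hk.2]) with h | h | h
      · exfalso; apply hjk; rw [← hρj j, ← hρj k, h]
      · exact Or.inl h
      · exact Or.inr h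

end Pool.Agent.W_MP_a5173a_lc
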