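import Pool.Agent.W_MP_a5173a_lc.Peel
import Pool.Agent.W_MP_a5173a_lc.Offline

namespace Pool.Agent.W_MP_a5173a_lc

variable {n m : ℕ}

open Classical in
/-- The state of the adversary at time `t`: running times `p`, active machines `S`. -/
def Good (A : OnlineAlgorithm m) (E : Fin n → Finset (Fin m)) (t Q B : ℝ)
    (p : Fin n → ℝ) (S : Finset (Fin m)) (F : Fin n → Fin m) : Prop :=
  (∀ j, 0 < p j) ∧ (∀ j, p j ≤ 1) ∧ (∀ j, E j ⊆ S → p j = 1) ∧
  (∀ b ∈ S, vol E (longest (seenBefore (A.plan n E p) t)) S b < 1) ∧
  (Q ≤ (S.card : ℝ) - tot E (longest (seenBefore (A.plan n E p) t)) S) ∧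
  (∀ j, ¬ E j ⊆ S → F j ∈ E j ∧ F j ∉ S) ∧
  (∀ b, ∑ j with (¬ E j ⊆ S ∧ F j = b), p j ≤ B)

/-- Freezing the jobs inside `S` that satisfy `D` slightly above what has been observed. -/
lemma freeze (A : OnlineAlgorithm m) (E : Fin n → Finset (Fin m)) (hne : ∀ j, (E j).Nonempty)
    (t η : ℝ) (hη : 0 < η) (p q : Fin n → ℝ) (hp : ∀ j, 0 < p j)
    (hq : ∀ j, q j = p j ∨
      (p j = 1 ∧ q j = min (longest (seenBefore (A.plan n E p) t) j + η) 1)) :
    (∀ j, 0 < q j) ∧ seenBefore (A.plan n E q) t = seenBefore (A.plan n E p) t := by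
  have hR := A.legal n E p hne hp
  have hqpos : ∀ j, 0 < q j := by
    intro j
    rcases hq j with h | ⟨_, h⟩
    · rw [h]; exact hp j
    · rw [h]
      have := longest_nonneg hR hp t j
      exact lt_min (by linarith) one_pos
  refine ⟨hqpos, (A.nonanticipating n E p q t hne hp hqpos ?_).symm⟩
  apply compatible_of hR hp
  intro j
  rcases hq j with h | ⟨h1, h2⟩
  · exact Or.inl h
  · have hle := longest_le hR hp t j
    rw [h1] at hle
    rcases hle.lt_or_eq with hlt | heq
    · right
      rw [h1, h2]
      exact ⟨lt_min (by linarith) hlt, hlt⟩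
    · left
      rw [h1, h2, heq]
      exact min_eq_right (by linarith)

lemma step (A : OnlineAlgorithm m) (E : Fin n → Finset (Fin m)) (hE : ∀ j, (E j).card = 2)
    (t δ η Q : ℝ) (hδ : 0 < δ) (hδ' : 2 * δ ≤ 1) (hη : 0 < η)
    (p : Fin n → ℝ) (S : Finset (Fin m)) (F : Fin n → Fin m)
    (h : Good A E t Q (1 + m * δ + n * η) p S F) :
    ∃ p' S' F', Good A E (t + δ) ((1 - 2 * δ) * Q) (1 + m * δ + n * η) p' S' F' := by
  classical
  obtain ⟨hp, hp1, hpS, hvol, hQ, hF, hload⟩ := h
  have hne : ∀ j, (E j).Nonempty := fun j => Finset.card_pos.mp (by rw [hE j]; norm_num)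
  have hR := A.legal n E p hne hp
  set r0 := longest (seenBefore (A.plan n E p) t) with hr0
  set r1 := longest (seenBefore (A.plan n E p) (t + δ)) with hr1
  have hr1nn : ∀ j, 0 ≤ r1 j := fun j => longest_nonneg hR hp _ j
  have hScard : (S.card : ℝ) ≤ m := by
    have := Finset.card_le_univ S
    rw [Fintype.card_fin] at this
    exact_mod_cast this
  have hinc : ∀ J : Finset (Fin n), (∀ j ∈ J, E j ⊆ S) →
      ∑ j ∈ J, r1 j ≤ ∑ j ∈ J, r0 j + S.card * δ := by
    intro J hJ
    have := sum_increments hR hp (t := t) (t' := t + δ) (by linarith) S J hJ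
    have h2 : t + δ - t = δ := by ring
    rw [h2] at this
    exact this
  have hvol1 : ∀ b ∈ S, vol E r1 S b ≤ 1 + m * δ := by
    intro b hb
    have h1 := hinc (Finset.univ.filter (fun j => b ∈ E j ∧ E j ⊆ S))
      (fun j hj => (Finset.mem_filter.mp hj).2.2)
    have h2 := hvol b hb
    have h3 : (S.card : ℝ) * δ ≤ m * δ := mul_le_mul_of_nonneg_right hScard hδ.le
    unfold vol at h2 ⊢
    linarith
  have htot1 : tot E r1 S ≤ tot E r0 S + S.card * δ := by
    have h1 := hinc (Finset.univ.filter (fun j => E j ⊆ S))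
      (fun j hj => (Finset.mem_filter.mp hj).2)
    unfold tot
    exact h1
  have hB0 : 0 ≤ 1 + (m : ℝ) * δ := by positivity
  obtain ⟨S', hS'S, hv', ht', f, hf, hfload⟩ := peel E r1 hr1nn F (1 + m * δ) hB0 S hvol1
  set q : Fin n → ℝ := fun j => if E j ⊆ S ∧ ¬ E j ⊆ S' then min (r1 j + η) 1 else p j with hq
  have hqcase : ∀ j, q j = p j ∨
      (p j = 1 ∧ q j = min (longest (seenBefore (A.plan n E p) (t + δ)) j + η) 1) := by
    intro j
    by_cases hj : E j ⊆ S ∧ ¬ E j ⊆ S'
    · right
      exact ⟨hpS j hj.1, by simp only [hq, hj, and_self, not_false_eq_true, if_true]; rfl⟩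
    · left
      simp only [hq, hj, if_false]
  obtain ⟨hqpos, hsame⟩ := freeze A E hne (t + δ) η hη p q hp hqcase
  have hlong : longest (seenBefore (A.plan n E q) (t + δ)) = r1 := by rw [hsame]
  refine ⟨q, S', fun j => if E j ⊆ S then f j else F j, hqpos, ?_, ?_, ?_, ?_, ?_, ?_⟩
  · intro j
    rcases hqcase j with h | ⟨_, h⟩
    · rw [h]; exact hp1 j
    · rw [h]; exact min_le_right _ _
  · intro j hj
    have : ¬ (E j ⊆ S ∧ ¬ E j ⊆ S') := fun h => h.2 hj
    simp only [hq, this, if_false]
    exact hpS j (hj.trans hS'S)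
  · rw [hlong]; exact hv'
  · rw [hlong]
    -- the potential
    have h2 : 2 * tot E r0 S ≤ S.card := by
      rw [← sum_vol E r0 hE S]
      calc ∑ b ∈ S, vol E r0 S b ≤ ∑ b ∈ S, (1 : ℝ) :=
            Finset.sum_le_sum (fun b hb => (hvol b hb).le)
        _ = S.card := by simp
    have h3 : (1 - 2 * δ) * Q ≤ (1 - 2 * δ) * ((S.card : ℝ) - tot E r0 S) :=
      mul_le_mul_of_nonneg_left hQ (by linarith)
    nlinarith
  · intro j hj
    by_cases hjS : E j ⊆ S
    · simp only [hjS, if_true]
      exact ⟨(hf j hjS hj).1, (hf j hjS hj).2.1⟩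
    · simp only [hjS, if_false]
      exact ⟨(hF j hjS).1, fun h => (hF j hjS).2 (hS'S h)⟩
  · intro b
    by_cases hbS : b ∈ S
    · -- only newly frozen jobs
      have hsub : (Finset.univ.filter (fun j => ¬ E j ⊆ S' ∧
          (if E j ⊆ S then f j else F j) = b)) ⊆
          Finset.univ.filter (fun j => E j ⊆ S ∧ ¬ E j ⊆ S' ∧ f j = b) := by
        intro j hj
        simp only [Finset.mem_filter, Finset.mem_univ, true_and] at hj ⊢
        by_cases hjS : E j ⊆ S
        · rw [if_pos hjS] at hj
          exact ⟨hjS, hj.1, hj.2⟩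
        · rw [if_neg hjS] at hj
          exfalso
          exact (hF j hjS).2 (hj.2 ▸ hbS)
      calc ∑ j with (¬ E j ⊆ S' ∧ (if E j ⊆ S then f j else F j) = b), q j
          ≤ ∑ j with (E j ⊆ S ∧ ¬ E j ⊆ S' ∧ f j = b), q j :=
            Finset.sum_le_sum_of_subset_of_nonneg hsub (fun j _ _ => (hqpos j).le)
        _ ≤ ∑ j with (E j ⊆ S ∧ ¬ E j ⊆ S' ∧ f j = b), (r1 j + η) := by
            apply Finset.sum_le_sum
            intro j hj
            simp only [Finset.mem_filter, Finset.mem_univ, true_and] at hj
            have hc : E j ⊆ S ∧ ¬ E j ⊆ S' := ⟨hj.1, hj.2.1⟩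
            simp only [hq, hc, and_self, not_false_eq_true, if_true]
            exact min_le_left _ _
        _ ≤ (1 + m * δ) + n * η := by
            rw [Finset.sum_add_distrib]
            apply add_le_add (hfload b)
            rw [Finset.sum_const, nsmul_eq_mul]
            apply mul_le_mul_of_nonneg_right _ hη.le
            have := Finset.card_le_univ
              (Finset.univ.filter (fun j => E j ⊆ S ∧ ¬ E j ⊆ S' ∧ f j = b))
            rw [Fintype.card_fin] at this
            exact_mod_cast this
    · -- nothing new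
      refine le_trans ?_ (hload b)
      have hsub : (Finset.univ.filter (fun j => ¬ E j ⊆ S' ∧
          (if E j ⊆ S then f j else F j) = b)) ⊆
          Finset.univ.filter (fun j => ¬ E j ⊆ S ∧ F j = b) := by
        intro j hj
        simp only [Finset.mem_filter, Finset.mem_univ, true_and] at hj ⊢
        by_cases hjS : E j ⊆ S
        · rw [if_pos hjS] at hj
          exfalso
          exact hbS (hj.2 ▸ (hf j hjS hj.1).2.2)
        · rw [if_neg hjS] at hj
          exact ⟨hjS, hj.2⟩
      refine le_trans (Finset.sum_le_sum_of_subset_of_nonneg hsub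
        (fun j _ _ => (hqpos j).le)) ?_
      apply Finset.sum_le_sum
      intro j hj
      simp only [Finset.mem_filter, Finset.mem_univ, true_and] at hj
      have : ¬ (E j ⊆ S ∧ ¬ E j ⊆ S') := fun h => hj.1 h.1
      simp only [hq, this, if_false]
      exact le_refl _

lemma good_all (A : OnlineAlgorithm m) (E : Fin n → Finset (Fin m)) (hE : ∀ j, (E j).card = 2)
    (δ η : ℝ) (hδ : 0 < δ) (hδ' : 2 * δ ≤ 1) (hη : 0 < η) (k : ℕ) :
    ∃ p S F, Good A E (k * δ) ((1 - 2 * δ) ^ k * m) (1 + m * δ + n * η) p S F := by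
  classical
  induction k with
  | zero =>
    have hne : ∀ j, (E j).Nonempty := fun j => Finset.card_pos.mp (by rw [hE j]; norm_num)
    have hp : ∀ j : Fin n, (0 : ℝ) < (fun _ => 1 : Fin n → ℝ) j := fun _ => one_pos
    have hR := A.legal n E (fun _ => 1) hne hp
    have hz : longest (seenBefore (A.plan n E (fun _ => 1)) (((0 : ℕ) : ℝ) * δ)) = fun _ => 0 := by
      funext j
      rw [Nat.cast_zero, zero_mul]
      exact longest_zero hR hp j
    refine ⟨fun _ => 1, Finset.univ, fun j => (hne j).choose, fun _ => one_pos,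
      fun _ => le_refl _, fun _ _ => rfl, ?_, ?_, ?_, ?_⟩
    · intro b _
      rw [hz]
      unfold vol
      simp
    · rw [hz]
      unfold tot
      simp
    · intro j hj
      exact absurd (Finset.subset_univ _) hj
    · intro b
      simp only [Finset.subset_univ, not_true_eq_false, false_and, Finset.filter_false,
        Finset.sum_empty]
      positivity
  | succ k ih =>
    obtain ⟨p, S, F, h⟩ := ih
    obtain ⟨p', S', F', h'⟩ := step A E hE _ δ η _ hδ hδ' hη p S F h
    refine ⟨p', S', F', ?_⟩
    have e1 : ((k + 1 : ℕ) : ℝ) * δ = k * δ + δ := by push_cast; ring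
    have e2 : (1 - 2 * δ) ^ (k + 1) * (m : ℝ) = (1 - 2 * δ) * ((1 - 2 * δ) ^ k * m) := by ring
    rw [e1, e2]
    exact h'

lemma final (A : OnlineAlgorithm m) (E : Fin n → Finset (Fin m)) (hE : ∀ j, (E j).card = 2)
    (hall : ∀ b c : Fin m, b ≠ c → ∃ j, E j = {b, c})
    (δ η : ℝ) (hδ : 0 < δ) (hδ' : 2 * δ ≤ 1) (hη : 0 < η) (k : ℕ)
    (hk : 1 < (1 - 2 * δ) ^ k * m) (c : ℝ) (hc : Competitive A c) :
    k * δ ≤ c * (1 + m * δ + n * η) := by
  classical
  obtain ⟨p, S, F, hp, hp1, hpS, hvol, hQ, hF, hload⟩ := good_all A E hE δ η hδ hδ' hη k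
  have hne : ∀ j, (E j).Nonempty := fun j => Finset.card_pos.mp (by rw [hE j]; norm_num)
  have hR := A.legal n E p hne hp
  set T : ℝ := k * δ with hT
  set r := longest (seenBefore (A.plan n E p) T) with hr
  have hrnn : ∀ j, 0 ≤ r j := fun j => longest_nonneg hR hp _ j
  set q : Fin n → ℝ := fun j => if E j ⊆ S then min (r j + η) 1 else p j with hq
  have hqcase : ∀ j, q j = p j ∨
      (p j = 1 ∧ q j = min (longest (seenBefore (A.plan n E p) T) j + η) 1) := by
    intro j
    by_cases hj : E j ⊆ S
    · right
      exact ⟨hpS j hj, by simp only [hq, hj, if_true]; rfl⟩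
    · left
      simp only [hq, hj, if_false]
  obtain ⟨hqpos, hsame⟩ := freeze A E hne T η hη p q hp hqcase
  -- the offline optimum is small
  have hopt : opt E q ≤ 1 + m * δ + n * η := by
    apply opt_le_of_assignment hqpos (fun j => if E j ⊆ S then (hne j).choose else F j)
    · intro j
      by_cases hj : E j ⊆ S
      · simp only [hj, if_true]; exact (hne j).choose_spec
      · simp only [hj, if_false]; exact (hF j hj).1
    · positivity
    · intro b
      by_cases hbS : b ∈ S
      · have hsub : (Finset.univ.filter (fun j =>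
            (if E j ⊆ S then (hne j).choose else F j) = b)) ⊆
            Finset.univ.filter (fun j => b ∈ E j ∧ E j ⊆ S) := by
          intro j hj
          simp only [Finset.mem_filter, Finset.mem_univ, true_and] at hj ⊢
          by_cases hjS : E j ⊆ S
          · rw [if_pos hjS] at hj
            exact ⟨hj ▸ (hne j).choose_spec, hjS⟩
          · rw [if_neg hjS] at hj
            exact absurd (hj ▸ hbS) (hF j hjS).2
        calc ∑ j with (if E j ⊆ S then (hne j).choose else F j) = b, q j
            ≤ ∑ j with (b ∈ E j ∧ E j ⊆ S), q j :=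
              Finset.sum_le_sum_of_subset_of_nonneg hsub (fun j _ _ => (hqpos j).le)
          _ ≤ ∑ j with (b ∈ E j ∧ E j ⊆ S), (r j + η) := by
              apply Finset.sum_le_sum
              intro j hj
              simp only [Finset.mem_filter, Finset.mem_univ, true_and] at hj
              simp only [hq, hj.2, if_true]
              exact min_le_left _ _
          _ ≤ 1 + n * η := by
              rw [Finset.sum_add_distrib]
              apply add_le_add (hvol b hbS).le
              rw [Finset.sum_const, nsmul_eq_mul]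
              apply mul_le_mul_of_nonneg_right _ hη.le
              have := Finset.card_le_univ
                (Finset.univ.filter (fun j => b ∈ E j ∧ E j ⊆ S))
              rw [Fintype.card_fin] at this
              exact_mod_cast this
          _ ≤ 1 + m * δ + n * η := by
              have : 0 ≤ (m : ℝ) * δ := by positivity
              linarith
      · refine le_trans ?_ (hload b)
        have hsub : (Finset.univ.filter (fun j =>
            (if E j ⊆ S then (hne j).choose else F j) = b)) ⊆
            Finset.univ.filter (fun j => ¬ E j ⊆ S ∧ F j = b) := by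
          intro j hj
          simp only [Finset.mem_filter, Finset.mem_univ, true_and] at hj ⊢
          by_cases hjS : E j ⊆ S
          · rw [if_pos hjS] at hj
            exact absurd (hj ▸ hjS (hne j).choose_spec) hbS
          · rw [if_neg hjS] at hj
            exact ⟨hjS, hj⟩
        refine le_trans (Finset.sum_le_sum_of_subset_of_nonneg hsub
          (fun j _ _ => (hqpos j).le)) ?_
        apply Finset.sum_le_sum
        intro j hj
        simp only [Finset.mem_filter, Finset.mem_univ, true_and] at hj
        simp only [hq, hj.1, if_false]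
        exact le_refl _
  -- two active machines
  have htot : 0 ≤ tot E r S := Finset.sum_nonneg (fun j _ => hrnn j)
  have hS2 : 1 < S.card := by
    have : (1 : ℝ) < S.card := by linarith
    exact_mod_cast this
  obtain ⟨b, hb, d, hd, hbd⟩ := Finset.one_lt_card.mp hS2
  obtain ⟨j, hj⟩ := hall b d hbd
  have hjS : E j ⊆ S := by
    rw [hj]; intro x hx
    rw [Finset.mem_insert, Finset.mem_singleton] at hx
    rcases hx with rfl | rfl <;> assumption
  have hrj : r j < 1 := by
    refine lt_of_le_of_lt ?_ (hvol b hb)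
    unfold vol
    apply Finset.single_le_sum (f := r) (fun i _ => hrnn i)
    simp only [Finset.mem_filter, Finset.mem_univ, true_and]
    exact ⟨by rw [hj]; exact Finset.mem_insert_self _ _, hjS⟩
  have hqj : r j < q j := by
    simp only [hq, hjS, if_true]
    exact lt_min (by linarith) hrj
  -- the algorithm has not completed `j` by time `T`
  obtain ⟨ρ, hρ, hρj, hρlen, hρstop⟩ := hc n E q hne hqpos j
  have hRq := A.legal n E q hne hqpos
  have htimes := hRq.times ρ hρ
  have hTle : T ≤ c * opt E q := by
    by_contra hcon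
    push Not at hcon
    have hstop : ρ.stop < T := lt_of_le_of_lt hρstop hcon
    have h1 := le_longest hRq hqpos T ρ hρ (by linarith [htimes.2])
    rw [min_eq_left hstop.le, hρj, hsame] at h1
    have : q j ≤ r j := by rw [← hρlen]; exact h1
    linarith
  have hcpos : 0 ≤ c := by
    by_contra hcon
    push Not at hcon
    have h1 : c * opt E q ≤ 0 := mul_nonpos_of_nonpos_of_nonneg hcon.le (opt_nonneg _ _)
    linarith [htimes.1, htimes.2]
  exact le_trans hTle (mul_le_mul_of_nonneg_left hopt hcpos)

end Pool.Agent.W_MP_a5173a_lc
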