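import Pool.Agent.W_MP_a5173a_lc.Lower

namespace Pool.Agent.W_MP_a5173a_lc

open Filter Topology

/-- The hard instances: one job for every pair of machines. -/
lemma exists_pairs (m : ℕ) : ∃ (n : ℕ) (E : Fin n → Finset (Fin m)),
    (∀ j, (E j).card = 2) ∧ ∀ b c : Fin m, b ≠ c → ∃ j, E j = {b, c} := by
  classical
  let e := Fintype.equivFin {s : Finset (Fin m) // s.card = 2}
  refine ⟨Fintype.card {s : Finset (Fin m) // s.card = 2}, fun j => (e.symm j).1,
    fun j => (e.symm j).2, ?_⟩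
  intro b c hbc
  refine ⟨e ⟨{b, c}, Finset.card_pair hbc⟩, ?_⟩
  simp

theorem lower_bound (m : ℕ) (hm : 2 ≤ m) (A : OnlineAlgorithm m) (c : ℝ) (hc : Competitive A c) :
    Real.log m / 2 ≤ c := by
  obtain ⟨n, E, hE, hall⟩ := exists_pairs m
  by_contra hcon
  push Not at hcon
  have hm1 : (1 : ℝ) < m := by exact_mod_cast hm
  have hlog : 0 < Real.log m := Real.log_pos hm1
  set T : ℝ := (max c 0 + Real.log m / 2) / 2 with hT
  have hmaxlt : max c 0 < Real.log m / 2 := max_lt hcon (by linarith)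
  have hTpos : 0 < T := by
    have := le_max_right c 0
    rw [hT]; linarith
  have hcT : c < T := by
    have := le_max_left c 0
    rw [hT]; linarith
  have hTlog : 2 * T < Real.log m := by
    rw [hT]; linarith
  -- limits
  have h1 : Tendsto (fun K : ℕ => (1 + (-(2 * T)) / (K : ℝ)) ^ K * m) atTop
      (𝓝 (Real.exp (-(2 * T)) * m)) :=
    (Real.tendsto_one_add_div_pow_exp (-(2 * T))).mul_const _
  have h1' : (1 : ℝ) < Real.exp (-(2 * T)) * m := by
    have h2 : (m : ℝ) = Real.exp (Real.log m) := (Real.exp_log (by linarith)).symm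
    rw [h2, ← Real.exp_add]
    apply Real.one_lt_exp_iff.mpr
    linarith
  have hdiv : ∀ x : ℝ, Tendsto (fun K : ℕ => x / (K : ℝ)) atTop (𝓝 0) :=
    fun x => tendsto_const_div_atTop_nhds_zero_nat x
  have h2 : Tendsto (fun K : ℕ => c * (1 + m * (T / (K : ℝ)) + n * (T / (K : ℝ)))) atTop
      (𝓝 (c * (1 + m * 0 + n * 0))) := by
    apply Tendsto.const_mul
    exact ((tendsto_const_nhds).add ((hdiv T).const_mul _)).add ((hdiv T).const_mul _)
  have h2' : c * (1 + (m : ℝ) * 0 + n * 0) < T := by linarith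
  have h3 : ∀ᶠ K : ℕ in atTop, (2 * T) / (K : ℝ) < 1 :=
    (hdiv (2 * T)).eventually (gt_mem_nhds one_pos)
  obtain ⟨K, hK1, hK2, hK3, hK4⟩ := ((h1.eventually (lt_mem_nhds h1')).and
    ((h2.eventually (gt_mem_nhds h2')).and (h3.and (eventually_gt_atTop 0)))).exists
  have hKpos : (0 : ℝ) < K := by exact_mod_cast hK4
  have hδ : 0 < T / (K : ℝ) := by positivity
  have hδ' : 2 * (T / (K : ℝ)) ≤ 1 := by
    have : 2 * (T / (K : ℝ)) = (2 * T) / K := by ring
    rw [this]; exact hK3.le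
  have hk : (1 : ℝ) < (1 - 2 * (T / (K : ℝ))) ^ K * m := by
    have : (1 - 2 * (T / (K : ℝ))) = 1 + (-(2 * T)) / K := by ring
    rw [this]; exact hK1
  have := final A E hE hall (T / K) (T / K) hδ hδ' hδ K hk c hc
  have hKT : (K : ℝ) * (T / K) = T := by field_simp
  rw [hKT] at this
  linarith

end Pool.Agent.W_MP_a5173a_lc
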