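import Pool.Agent.W_MP_a5173a_lc.Basic

namespace Pool.Agent.W_MP_a5173a_lc

variable {n m : ℕ}

open Classical in
/-- Total weight of the jobs inside `S`. -/
noncomputable def tot (E : Fin n → Finset (Fin m)) (r : Fin n → ℝ) (S : Finset (Fin m)) : ℝ :=
  ∑ j with E j ⊆ S, r j

open Classical in
/-- Total weight of the jobs inside `S` that are eligible on `b`. -/
noncomputable def vol (E : Fin n → Finset (Fin m)) (r : Fin n → ℝ) (S : Finset (Fin m))
    (b : Fin m) : ℝ :=
  ∑ j with (b ∈ E j ∧ E j ⊆ S), r j

lemma vol_mono {E : Fin n → Finset (Fin m)} {r : Fin n → ℝ} (hr : ∀ j, 0 ≤ r j)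
    {S S' : Finset (Fin m)} (h : S' ⊆ S) (b : Fin m) : vol E r S' b ≤ vol E r S b := by
  classical
  unfold vol
  apply Finset.sum_le_sum_of_subset_of_nonneg
  · intro j hj
    simp only [Finset.mem_filter, Finset.mem_univ, true_and] at hj ⊢
    exact ⟨hj.1, hj.2.trans h⟩
  · intro j _ _; exact hr j

lemma tot_erase (E : Fin n → Finset (Fin m)) (r : Fin n → ℝ)
    (S : Finset (Fin m)) (b : Fin m) : tot E r S = tot E r (S.erase b) + vol E r S b := by
  classical
  unfold tot vol
  rw [← Finset.sum_filter_add_sum_filter_not (Finset.univ.filter (fun j => E j ⊆ S))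
    (fun j => b ∉ E j)]
  congr 1
  · rw [Finset.filter_filter]
    apply Finset.sum_congr _ (fun _ _ => rfl)
    ext j
    simp only [Finset.mem_filter, Finset.mem_univ, true_and, Finset.subset_erase]
  · rw [Finset.filter_filter]
    apply Finset.sum_congr _ (fun _ _ => rfl)
    ext j
    simp only [Finset.mem_filter, Finset.mem_univ, true_and, not_not]
    tauto

lemma sum_vol (E : Fin n → Finset (Fin m)) (r : Fin n → ℝ) (hE : ∀ j, (E j).card = 2)
    (S : Finset (Fin m)) : ∑ b ∈ S, vol E r S b = 2 * tot E r S := by
  classical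
  unfold vol tot
  have h1 : ∀ b ∈ S, (∑ j with (b ∈ E j ∧ E j ⊆ S), r j) =
      ∑ j with E j ⊆ S, if b ∈ E j then r j else 0 := by
    intro b _
    rw [← Finset.sum_filter, Finset.filter_filter]
    apply Finset.sum_congr _ (fun _ _ => rfl)
    ext j
    simp only [Finset.mem_filter, Finset.mem_univ, true_and]
    tauto
  rw [Finset.sum_congr rfl h1, Finset.sum_comm, Finset.mul_sum]
  apply Finset.sum_congr rfl
  intro j hj
  simp only [Finset.mem_filter, Finset.mem_univ, true_and] at hj
  rw [← Finset.sum_filter, Finset.sum_const, nsmul_eq_mul]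
  have : (S.filter (fun b => b ∈ E j)) = E j := by
    ext b
    simp only [Finset.mem_filter]
    exact ⟨fun h => h.2, fun h => ⟨hj h, h⟩⟩
  rw [this, hE j]
  norm_num

open Classical in
/-- Removing machines of large volume one after the other. -/
lemma peel (E : Fin n → Finset (Fin m)) (r : Fin n → ℝ) (hr : ∀ j, 0 ≤ r j)
    (g : Fin n → Fin m) (B : ℝ) (hB : 0 ≤ B) :
    ∀ S : Finset (Fin m), (∀ b ∈ S, vol E r S b ≤ B) →
      ∃ S' ⊆ S, (∀ b ∈ S', vol E r S' b < 1) ∧
        tot E r S' + ((S.card : ℝ) - S'.card) ≤ tot E r S ∧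
        ∃ f : Fin n → Fin m, (∀ j, E j ⊆ S → ¬ E j ⊆ S' → f j ∈ E j ∧ f j ∉ S' ∧ f j ∈ S) ∧
          ∀ b, ∑ j with (E j ⊆ S ∧ ¬ E j ⊆ S' ∧ f j = b), r j ≤ B := by
  intro S
  induction S using Finset.strongInduction with
  | H S ih =>
    intro hS
    by_cases hall : ∀ b ∈ S, vol E r S b < 1
    · refine ⟨S, Finset.Subset.refl _, hall, by simp, g, fun j h1 h2 => absurd h1 h2, ?_⟩
      intro b
      have : (Finset.univ.filter (fun j => E j ⊆ S ∧ ¬ E j ⊆ S ∧ g j = b)) = ∅ := by
        ext j
        simp only [Finset.mem_filter, Finset.mem_univ, true_and, Finset.notMem_empty, iff_false]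
        tauto
      rw [this, Finset.sum_empty]
      exact hB
    · push Not at hall
      obtain ⟨b, hbS, hb1⟩ := hall
      obtain ⟨S', hS', hv, ht, f, hf, hload⟩ := ih (S.erase b) (Finset.erase_ssubset hbS)
        (fun c hc => le_trans (vol_mono hr (Finset.erase_subset _ _) c)
          (hS c (Finset.mem_of_mem_erase hc)))
      have hbS' : b ∉ S' := fun h => (Finset.mem_erase.mp (hS' h)).1 rfl
      refine ⟨S', hS'.trans (Finset.erase_subset _ _), hv, ?_,
        fun j => if b ∈ E j then b else f j, ?_, ?_⟩
      · have h1 := tot_erase E r S b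
        have h2 : ((S.erase b).card : ℝ) = S.card - 1 := by
          rw [Finset.card_erase_of_mem hbS, Nat.cast_sub (Finset.card_pos.mpr ⟨b, hbS⟩)]
          simp
        rw [h2] at ht
        linarith
      · intro j hj hj'
        by_cases hbj : b ∈ E j
        · simp only [hbj, if_true]
          exact ⟨trivial, hbS', hbS⟩
        · simp only [hbj, if_false]
          have hsub : E j ⊆ S.erase b := by
            rw [Finset.subset_erase]; exact ⟨hj, hbj⟩
          obtain ⟨h1, h2, h3⟩ := hf j hsub hj'
          exact ⟨h1, h2, Finset.mem_of_mem_erase h3⟩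
      · intro c
        by_cases hcb : c = b
        · subst hcb
          refine le_trans ?_ (hS c hbS)
          unfold vol
          apply Finset.sum_le_sum_of_subset_of_nonneg
          · intro j hj
            simp only [Finset.mem_filter, Finset.mem_univ, true_and] at hj ⊢
            obtain ⟨h1, h2, h3⟩ := hj
            by_cases hbj : c ∈ E j
            · exact ⟨hbj, h1⟩
            · exfalso
              rw [if_neg hbj] at h3
              have hsub : E j ⊆ S.erase c := by
                rw [Finset.subset_erase]; exact ⟨h1, hbj⟩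
              have := (hf j hsub h2).2.2
              rw [h3] at this
              exact (Finset.mem_erase.mp this).1 rfl
          · intro j _ _; exact hr j
        · refine le_trans ?_ (hload c)
          apply Finset.sum_le_sum_of_subset_of_nonneg
          · intro j hj
            simp only [Finset.mem_filter, Finset.mem_univ, true_and] at hj ⊢
            obtain ⟨h1, h2, h3⟩ := hj
            by_cases hbj : b ∈ E j
            · exfalso; rw [if_pos hbj] at h3; exact hcb h3.symm
            · rw [if_neg hbj] at h3
              refine ⟨?_, h2, h3⟩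
              rw [Finset.subset_erase]; exact ⟨h1, hbj⟩
          · intro j _ _; exact hr j

/-- Changing the running times of jobs that have not been completed, without going below what has
been observed, is compatible with the observations. -/
lemma compatible_of {E : Fin n → Finset (Fin m)} {p q : Fin n → ℝ} {R : Set (Run n m)}
    (hR : Legal E p R) (hp : ∀ j, 0 < p j) (t : ℝ)
    (h : ∀ j, q j = p j ∨
      (longest (seenBefore R t) j < q j ∧ longest (seenBefore R t) j < p j)) :
    Compatible R p q t := by
  intro r hr hrt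
  have hlen := hR.length_le r hr
  have hle := le_longest hR hp t r hr hrt
  rcases h r.job with h | ⟨h1, h2⟩
  · refine ⟨fun _ _ => h, fun _ h' => by rw [h]; exact h', fun h' => by rw [h]; linarith⟩
  · refine ⟨fun h3 h4 => ?_, fun h3 _ => ?_, fun h3 => ?_⟩
    · rw [min_eq_left h3.le] at hle
      linarith
    · rw [min_eq_left h3.le] at hle
      linarith
    · rw [min_eq_right h3] at hle
      linarith

end Pool.Agent.W_MP_a5173a_lc
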